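import Pool.Agent.Lib.MP_69dcc1_pr.Final

/-!
Spin-flip domination for the supercritical contact process on homogeneous trees.
-/

namespace Pool.Agent.Results.MP_69dcc1_pr.Domination

open MeasureTheory ProbabilityTheory Pool.Agent.Lib.MP_69dcc1_pr

/-- For `d ≥ 2` and `lam` above the critical value there are a set `Δ` of positive density,
a rate `α > 0` and a coupling in which the upper stationary contact process dominates the
stationary independent spin-flip process on `Δ` at all times. -/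
theorem result (d : ℕ) (hd : 2 ≤ d) (lam : NNReal) (hlam : critical d < (lam : ENNReal)) :
    ∃ ν : Measure (Set (Vx d)), IsUpperInvariant lam ν ∧
      ∃ Δ : Set (Vx d), PosDensity Δ ∧ ∃ α : NNReal, 0 < α ∧ ∃ ρ : unitInterval,
        (ρ : ℝ) = (α : ℝ) / ((α : ℝ) + 1) ∧
        ∃ (Ω : Type) (_ : MeasurableSpace Ω) (P : Measure Ω) (η ξ : Ω → Set (Vx d))
          (ω₁ : Ω → (Vx d × Option (Fin (d + 1))) × ℕ → Cell)
          (ω₂ : Ω → (Vx d × Bool) × ℕ → Cell), IsProbabilityMeasure P ∧
          HasLaw (fun w => (η w, ω₁ w)) (ν.prod (contactMarks d lam)) P ∧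
          HasLaw (fun w => (ξ w, ω₂ w)) ((setBernoulli Set.univ ρ).prod (flipMarks d α)) P ∧
          ∀ᵐ w ∂P, ∀ t : ℝ, 0 ≤ t → ∀ x ∈ Δ,
            x ∈ spinFlip (ξ w) (ω₂ w) t → x ∈ contact (η w) (ω₁ w) t :=
  main hd lam hlam

end Pool.Agent.Results.MP_69dcc1_pr.Domination
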